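import Pool.Agent.Lib.MP_acafa7_al.MS.Iface2

/-! Module CutOp: cutting along an edge and capping by two one-dart faces. -/

namespace MSG.H58

open MSG
open Classical

section

variable {D : Type}

/-- the involution of the cut map -/
noncomputable def cutι (M : DMap D) (p : D) : D ⊕ Bool → D ⊕ Bool
  | Sum.inl x => if x = p then Sum.inr false else if x = M.ι p then Sum.inr true else Sum.inl (M.ι x)
  | Sum.inr false => Sum.inl p
  | Sum.inr true => Sum.inl (M.ι p)

theorem cutι_p (M : DMap D) (p : D) : cutι M p (Sum.inl p) = Sum.inr false := by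
  simp [cutι]

theorem cutι_ip (M : DMap D) (p : D) : cutι M p (Sum.inl (M.ι p)) = Sum.inr true := by
  simp [cutι, M.ne p]

theorem cutι_x (M : DMap D) (p x : D) (h1 : x ≠ p) (h2 : x ≠ M.ι p) :
    cutι M p (Sum.inl x) = Sum.inl (M.ι x) := by
  simp [cutι, h1, h2]

theorem ι_inj (M : DMap D) {x y : D} (h : M.ι x = M.ι y) : x = y := M.ι.injective h

theorem cutι_inv (M : DMap D) (p : D) : Function.Involutive (cutι M p) := by
  intro d
  match d with
  | Sum.inl x =>
    by_cases h1 : x = p
    · subst h1; rw [cutι_p]; rfl
    · by_cases h2 : x = M.ι p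
      · subst h2; rw [cutι_ip]; rfl
      · rw [cutι_x M p x h1 h2, cutι_x M p (M.ι x), M.ιι]
        · intro h; apply h2; rw [← h, M.ιι]
        · intro h; exact h1 (ι_inj M h)
  | Sum.inr false => exact cutι_p M p
  | Sum.inr true => exact cutι_ip M p

theorem cutι_ne (M : DMap D) (p : D) : ∀ d, cutι M p d ≠ d := by
  intro d
  match d with
  | Sum.inl x =>
    by_cases h1 : x = p
    · subst h1; rw [cutι_p]; simp
    · by_cases h2 : x = M.ι p
      · subst h2; rw [cutι_ip]; simp
      · rw [cutι_x M p x h1 h2]
        intro h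
        exact M.ne x (Sum.inl_injective h)
  | Sum.inr false => simp [cutι]
  | Sum.inr true => simp [cutι]

/-- the cut map -/
noncomputable def cutM (M : DMap D) (p : D) : DMap (D ⊕ Bool) where
  φ := Equiv.sumCongr M.φ (Equiv.refl Bool)
  ι := (cutι_inv M p).toPerm (cutι M p)
  ιι := fun d => cutι_inv M p d
  ne := fun d => cutι_ne M p d

theorem cutM_ι (M : DMap D) (p : D) (d : D ⊕ Bool) : (cutM M p).ι d = cutι M p d := rfl
theorem cutM_φl (M : DMap D) (p x : D) : (cutM M p).φ (Sum.inl x) = Sum.inl (M.φ x) := rfl
theorem cutM_φr (M : DMap D) (p : D) (b : Bool) : (cutM M p).φ (Sum.inr b) = Sum.inr b := rfl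

theorem cutM_planar (M : DMap D) (p : D) (hM : M.Planar) : (cutM M p).Planar := by
  intro k' hk'
  have h0 : k' (Sum.inl (M.φ p)) + k' (Sum.inl p) = 0 := by
    have := hk' (Sum.inr false)
    rw [cutM_ι, cutM_φr] at this
    simp only [cutι] at this
    rw [cutM_φl] at this
    rw [this]
    exact CharTwo.add_self_eq_zero _
  have h1 : k' (Sum.inl (M.φ (M.ι p))) + k' (Sum.inl (M.ι p)) = 0 := by
    have := hk' (Sum.inr true)
    rw [cutM_ι, cutM_φr] at this
    simp only [cutι] at this
    rw [cutM_φl] at this
    rw [this]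
    exact CharTwo.add_self_eq_zero _
  obtain ⟨h, hh1, hh2⟩ := hM (fun x => k' (Sum.inl x)) (by
    intro x
    by_cases e1 : x = p
    · subst e1
      show k' (Sum.inl (M.φ (M.ι x))) + k' (Sum.inl (M.ι x)) = k' (Sum.inl (M.φ x)) + k' (Sum.inl x)
      rw [h0, h1]
    · by_cases e2 : x = M.ι p
      · subst e2
        show k' (Sum.inl (M.φ (M.ι (M.ι p)))) + k' (Sum.inl (M.ι (M.ι p))) =
          k' (Sum.inl (M.φ (M.ι p))) + k' (Sum.inl (M.ι p))
        rw [M.ιι, h0, h1]
      · have := hk' (Sum.inl x)
        rw [cutM_ι, cutι_x M p x e1 e2, cutM_φl, cutM_φl] at this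
        exact this)
  have hp : h (M.ι p) = h p := by
    have a1 : k' (Sum.inl (M.φ p)) = k' (Sum.inl p) := by
      have := CharTwo.add_eq_zero.1 h0
      exact this
    have a2 := hh2 p
    have a2' : k' (Sum.inl (M.φ p)) + h (M.φ p) = k' (Sum.inl p) + h p := a2
    rw [a1] at a2'
    have a3 := add_left_cancel a2'
    rw [← hh1 p, a3]
  refine ⟨fun d => Sum.elim h (fun b => if b = true then h p else h (M.ι p)) d, ?_, ?_⟩
  · intro d
    rw [cutM_ι]
    match d with
    | Sum.inl x =>
      rw [cutM_φl]
      by_cases e1 : x = p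
      · subst e1; rw [cutι_p]; simp [hh1]
      · by_cases e2 : x = M.ι p
        · subst e2; rw [cutι_ip]; simp [hh1, M.ιι]
        · rw [cutι_x M p x e1 e2]; simp [hh1]
    | Sum.inr false => rw [cutM_φr]; simp [cutι, hp]
    | Sum.inr true => rw [cutM_φr]; simp [cutι, hp]
  · intro d
    match d with
    | Sum.inl x => rw [cutM_φl]; exact hh2 x
    | Sum.inr b => rw [cutM_φr]

end

theorem cutop : CutOpStatement := by
  intro V D _ a M p m hm
  have hι : ∀ x, M.ι (M.ι x) = x := M.ιι
  let M' : LMap V (D ⊕ Bool) a :=
    { cutM M.toDMap p with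
      f := Sum.elim M.f (fun b => if b = true then M.f p else M.f (M.ι p))
      γ := Sum.elim M.γ (fun b => if b = true then M.γ p else - M.γ p)
      h := Sum.elim M.h (fun b => if b = true then m else - m)
      γι := by
        intro d
        show Sum.elim M.γ (fun b => if b = true then M.γ p else - M.γ p) (cutι M.toDMap p d) = _
        match d with
        | Sum.inl x =>
          by_cases e1 : x = p
          · subst e1; rw [cutι_p]; simp
          · by_cases e2 : x = M.ι p
            · subst e2; rw [cutι_ip]; simp [M.γι]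
            · rw [cutι_x M.toDMap p x e1 e2]; simp [M.γι]
        | Sum.inr false => simp [cutι]
        | Sum.inr true => simp [cutι, M.γι]
      tgt := by
        intro d
        show (a ^ (Sum.elim M.γ (fun b => if b = true then M.γ p else - M.γ p) d))
          (Sum.elim M.f (fun b => if b = true then M.f p else M.f (M.ι p)) (cutι M.toDMap p d)) =
          (a ^ (Sum.elim M.h (fun b => if b = true then m else - m) d))
          (Sum.elim M.f (fun b => if b = true then M.f p else M.f (M.ι p))
            ((cutM M.toDMap p).φ d))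
        match d with
        | Sum.inl x =>
          rw [cutM_φl]
          by_cases e1 : x = p
          · subst e1; rw [cutι_p]; simpa using M.tgt x
          · by_cases e2 : x = M.ι p
            · subst e2; rw [cutι_ip]
              have := M.tgt (M.ι p)
              rw [M.ιι] at this
              simpa using this
            · rw [cutι_x M.toDMap p x e1 e2]; simpa using M.tgt x
        | Sum.inr false =>
          rw [cutM_φr]
          simp only [cutι, Sum.elim_inr, Sum.elim_inl]
          have h1 : (a ^ M.γ p) (M.f (M.ι p)) = (a ^ m) (M.f p) := hm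
          have h2 : M.f (M.ι p) = (a ^ (- M.γ p)) ((a ^ m) (M.f p)) := by
            rw [← h1, ← Equiv.Perm.mul_apply, ← zpow_add]; simp
          have h3 : (a ^ (-m)) (M.f (M.ι p)) = (a ^ (- M.γ p)) (M.f p) := by
            rw [h2, ← Equiv.Perm.mul_apply, ← Equiv.Perm.mul_apply, ← zpow_add, ← zpow_add]
            congr 2
            ring
          simp only [Bool.false_eq_true, if_false]
          exact h3.symm
        | Sum.inr true =>
          rw [cutM_φr]
          simp only [cutι, Sum.elim_inr, Sum.elim_inl, if_true]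
          exact hm }
  refine ⟨D ⊕ Bool, inferInstance, M', Sum.inl, Sum.inr false, Sum.inr true, Sum.inl_injective,
    by simp, by simp, ?_, fun x => rfl, rfl, rfl, ?_, rfl, rfl, fun x => ⟨rfl, rfl, rfl⟩, ?_, ?_,
    ?_, ?_, ?_, ?_, fun h => cutM_planar M.toDMap p h⟩
  · intro d'
    match d' with
    | Sum.inl x => exact Or.inr (Or.inr ⟨x, rfl⟩)
    | Sum.inr false => exact Or.inl rfl
    | Sum.inr true => exact Or.inr (Or.inl rfl)
  · intro x
    rfl
  · show (if false = true then M.f p else M.f (M.ι p)) = M.f (M.ι p)
    simp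
  · show (if true = true then M.f p else M.f (M.ι p)) = M.f p
    simp
  · show (if false = true then M.γ p else - M.γ p) = - M.γ p
    simp
  · show (if true = true then M.γ p else - M.γ p) = M.γ p
    simp
  · show (if false = true then m else - m) = - m
    simp
  · show (if true = true then m else - m) = m
    simp

end MSG.H58
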