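import Pool.Agent.Lib.MP_acafa7_al.MS.Iface2

/-! Module D1: induction on the number of triangles (Theorem 8.3). -/

namespace MSG.H58

open MSG
open Classical

section aux

variable {V D D' : Type} {a : Equiv.Perm V}

/-- a face consists of darts whose images are in the face -/
theorem face_mem (M : DMap D) {L : List D} (h : M.IsFace L) {x : D} (hx : x ∈ L) : M.φ x ∈ L := by
  have h1 : M.φ x ∈ L.map M.φ := List.mem_map_of_mem hx
  rw [h.2.2] at h1
  exact List.mem_rotate.1 h1

theorem len_le [Fintype D] {M : LMap V D a} {P Q : List D} {ε : ℤ} (h : IsAnn M P Q ε) :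
    P.length + Q.length ≤ Fintype.card D := by
  have h1 : (P ++ Q).Nodup := by
    rw [List.nodup_append]
    refine ⟨h.faceP.2.1, h.faceQ.2.1, ?_⟩
    intro x hx y hy e
    subst e
    exact h.disj x hx hy
  have h2 := h1.length_le_card
  rwa [List.length_append] at h2

theorem t_eq (M : LMap V D a) (d : D) : M.t d = (a ^ M.h d) (M.f (M.φ d)) := M.tgt d

/-- transport of a face along `jj` -/
theorem face_map (M : DMap D) (M' : DMap D') (jj : D → D') (L : List D) (h : M.IsFace L)
    (hinj : ∀ x ∈ L, ∀ y ∈ L, jj x = jj y → x = y)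
    (hφ : ∀ x ∈ L, M'.φ (jj x) = jj (M.φ x)) : M'.IsFace (L.map jj) := by
  refine ⟨?_, ?_, ?_⟩
  · intro e
    exact h.1 (List.map_eq_nil_iff.1 e)
  · exact List.Nodup.map_on (fun x hx y hy e => hinj x hx y hy e) h.2.1
  · rw [List.map_map, ← List.map_rotate, ← h.2.2, List.map_map]
    apply List.map_congr_left
    intro x hx
    exact hφ x hx

end aux

theorem d1 (hRed : RedStatement) (hCut : CutMStatement) (hToMA : ToMAStatement)
    (hD2 : D2Statement) (hCYL : CYLStatement) : D1Statement := by
  intro V X a C Λ K K' hMS hGeo hΛ hHyp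
  have hcyl := hCYL V X a hHyp.aut hHyp.conn K'
  obtain ⟨-, htrans, -, -, htr, -⟩ := hcyl
  have hK' : 3 ≤ K' := by
    have h1 := hHyp.K'
    have h2 : 0 ≤ C * K := mul_nonneg hHyp.C0.le hHyp.K0
    have h3 : (3 : ℝ) ≤ K' := by nlinarith
    exact_mod_cast h3
  -- strong induction
  have key : ∀ (n : ℕ) (D : Type) [Fintype D] (M : LMap V D a) (P Q : List D) (ε : ℤ),
      Fintype.card D - (P.length + Q.length) = n →
      IsAnn M P Q ε → M.AdjM X.G → (P.map (M.lenM X)).sum ≤ K → (Q.map (M.lenM X)).sum ≤ K →
      ∀ p ∈ P, ∀ q ∈ Q, CY X a K' (M.f p) (M.f q) := by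
    intro n
    induction n using Nat.strong_induction_on with
    | _ n ih =>
    intro D _ M P Q ε hn hann hadj hP hQ p hp q hq
    by_cases hcurv : ∀ d, (∀ b, M.SameV d b → b ∉ annB P Q) →
        M.curv (M.lenM X) (annB P Q) d ≤ 0
    · -- metric annulus
      have hma := hToMA V D X a C Λ hMS.metric hMS.conn hHyp.aut hGeo M P Q ε hann hadj hcurv
      let 𝒜 : MA X a C := ⟨D, inferInstance, M, P, Q, ε, M.lenM X,
        fun d => eE X (M.f d) (M.t d), hma⟩
      exact hD2 V X a C K K' hHyp 𝒜 ⟨hP, hQ⟩ p hp q hq
    · push Not at hcurv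
      obtain ⟨d₀, hd₀, hpos⟩ := hcurv
      have hle := len_le hann
      by_cases hloop : ∀ d, M.SameV d₀ d → ¬ M.SameV d (M.ι d)
      · -- reduction
        obtain ⟨D', hF, M', j, hinj, hφ, hlab, hpl, hadj', hoff, hcard, -⟩ :=
          hRed V D X a hMS.metric hMS.large hHyp.aut M (annB P Q) Set.univ (fun _ _ _ => 0) d₀
            ⟨fun _ _ _ => rfl, fun _ _ _ => rfl, fun _ _ _ _ _ _ _ _ _ _ _ _ _ _ => by simp⟩
            (Or.inl fun x => Set.mem_univ x) hann.planar hadj hann.off hd₀ hloop hpos
        have hPB : ∀ x ∈ P, x ∈ annB P Q := fun x hx => Or.inl hx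
        have hQB : ∀ x ∈ Q, x ∈ annB P Q := fun x hx => Or.inr hx
        let jj : D → D' := fun x => if h : x ∈ annB P Q then j ⟨x, h⟩ else j ⟨p, hPB p hp⟩
        have hjj : ∀ x (h : x ∈ annB P Q), jj x = j ⟨x, h⟩ := by
          intro x h
          show (if h : x ∈ annB P Q then j ⟨x, h⟩ else j ⟨p, hPB p hp⟩) = _
          rw [dif_pos h]
        have hjinj : ∀ x ∈ annB P Q, ∀ y ∈ annB P Q, jj x = jj y → x = y := by
          intro x hx y hy e
          rw [hjj x hx, hjj y hy] at e
          have := hinj e
          exact congrArg Subtype.val this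
        have hBφ : ∀ x ∈ annB P Q, M.φ x ∈ annB P Q := hann.off.1
        have hjφ : ∀ x ∈ annB P Q, M'.φ (jj x) = jj (M.φ x) := by
          intro x hx
          rw [hjj x hx, hjj _ (hBφ x hx)]
          exact hφ _ _ rfl
        have hjf : ∀ x ∈ annB P Q, M'.f (jj x) = M.f x := by
          intro x hx
          rw [hjj x hx]
          exact (hlab _).1
        have hjh : ∀ x ∈ annB P Q, M'.h (jj x) = M.h x := by
          intro x hx
          rw [hjj x hx]
          exact (hlab _).2
        have hjt : ∀ x ∈ annB P Q, M'.t (jj x) = M.t x := by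
          intro x hx
          rw [t_eq, t_eq, hjh x hx, hjφ x hx, hjf _ (hBφ x hx)]
        have hjl : ∀ x ∈ annB P Q, M'.lenM X (jj x) = M.lenM X x := by
          intro x hx
          unfold LMap.lenM
          rw [hjf x hx, hjt x hx]
        have hB' : annB (P.map jj) (Q.map jj) = Set.range j := by
          ext d'
          constructor
          · rintro (h | h)
            · obtain ⟨x, hx, rfl⟩ := List.mem_map.1 h
              exact ⟨⟨x, hPB x hx⟩, (hjj x (hPB x hx)).symm⟩
            · obtain ⟨x, hx, rfl⟩ := List.mem_map.1 h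
              exact ⟨⟨x, hQB x hx⟩, (hjj x (hQB x hx)).symm⟩
          · rintro ⟨⟨x, hx⟩, rfl⟩
            rcases hx with hx1 | hx1
            · exact Or.inl (List.mem_map.2 ⟨x, hx1, hjj x _⟩)
            · exact Or.inr (List.mem_map.2 ⟨x, hx1, hjj x _⟩)
        have hann' : IsAnn M' (P.map jj) (Q.map jj) ε := by
          refine ⟨hpl, ?_, ?_, ?_, ?_, ?_, ?_, hann.eps⟩
          · exact face_map M.toDMap M'.toDMap jj P hann.faceP
              (fun x hx y hy => hjinj x (hPB x hx) y (hPB y hy))
              (fun x hx => hjφ x (hPB x hx))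
          · exact face_map M.toDMap M'.toDMap jj Q hann.faceQ
              (fun x hx y hy => hjinj x (hQB x hx) y (hQB y hy))
              (fun x hx => hjφ x (hQB x hx))
          · intro d hd hd2
            obtain ⟨x, hx, rfl⟩ := List.mem_map.1 hd
            obtain ⟨y, hy, hxy⟩ := List.mem_map.1 hd2
            have := hjinj y (hQB y hy) x (hPB x hx) hxy
            subst this
            exact hann.disj _ hx hy
          · rw [hB']; exact hoff
          · unfold LMap.hol
            rw [List.map_map, ← hann.holP]
            unfold LMap.hol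
            congr 1
            apply List.map_congr_left
            intro x hx
            exact hjh x (hPB x hx)
          · unfold LMap.hol
            rw [List.map_map, ← hann.holQ]
            unfold LMap.hol
            congr 1
            apply List.map_congr_left
            intro x hx
            exact hjh x (hQB x hx)
        have hP' : ((P.map jj).map (M'.lenM X)).sum ≤ K := by
          rw [List.map_map]
          have : P.map (M'.lenM X ∘ jj) = P.map (M.lenM X) := by
            apply List.map_congr_left
            intro x hx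
            exact hjl x (hPB x hx)
          rw [this]; exact hP
        have hQ' : ((Q.map jj).map (M'.lenM X)).sum ≤ K := by
          rw [List.map_map]
          have : Q.map (M'.lenM X ∘ jj) = Q.map (M.lenM X) := by
            apply List.map_congr_left
            intro x hx
            exact hjl x (hQB x hx)
          rw [this]; exact hQ
        have hle' := len_le hann'
        have hlt : Fintype.card D' - ((P.map jj).length + (Q.map jj).length) < n := by
          rw [List.length_map, List.length_map] at hle' ⊢
          omega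
        have := ih _ hlt D' M' (P.map jj) (Q.map jj) ε rfl hann' hadj' hP' hQ' (jj p)
          (List.mem_map_of_mem hp) (jj q) (List.mem_map_of_mem hq)
        rwa [hjf p (hPB p hp), hjf q (hQB q hq)] at this
      · -- cut along a loop
        push Not at hloop
        obtain ⟨r, hr1, hr2⟩ := hloop
        have hrB : r ∉ annB P Q := hd₀ r hr1
        have hιB : M.ι r ∉ annB P Q := hd₀ _ (M.sameV_trans hr1 hr2)
        obtain ⟨D₁, D₂, hF1, hF2, M₁, M₂, P₁, r₁, r₂, Q₂, ha1, ha2, hadj1, hadj2, hs1, hs2, hl1,
          hl2, ⟨m, hm⟩, hc1, hc2⟩ := hCut V D X a hMS.metric hHyp.aut M P Q ε r hann hadj hrB hιB hr2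
        have hlen : M.lenM X r ≤ K := le_trans (hGeo.le _ _ (hadj r)) hΛ
        have hlP : P₁.length = P.length := by
          have := congrArg List.length hs1.1
          simpa using this.symm
        have hlQ : Q₂.length = Q.length := by
          have := congrArg List.length hs2.1
          simpa using this.symm
        have hzip : ∀ {E : Type} (N : LMap V E a) (R : List E), R.map (N.lenM X) =
            List.zipWith X.len (R.map N.f) (R.map N.t) := by
          intro E N R
          rw [List.zipWith_map]
          induction R with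
          | nil => rfl
          | cons x R ih2 => simp [LMap.lenM, ih2]
        have hsumP : (P₁.map (M₁.lenM X)).sum ≤ K := by
          rw [hzip M₁ P₁, ← hs1.1, ← hs1.2.1, ← hzip M P]; exact hP
        have hsumQ : (Q₂.map (M₂.lenM X)).sum ≤ K := by
          rw [hzip M₂ Q₂, ← hs2.1, ← hs2.2.1, ← hzip M Q]; exact hQ
        have hr1s : (([r₁] : List D₁).map (M₁.lenM X)).sum ≤ K := by
          simp only [List.map_cons, List.map_nil, List.sum_cons, List.sum_nil, add_zero]
          rw [hl1]; exact hlen
        have hr2s : (([r₂] : List D₂).map (M₂.lenM X)).sum ≤ K := by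
          simp only [List.map_cons, List.map_nil, List.sum_cons, List.sum_nil, add_zero]
          rw [hl2]; exact hlen
        have hle1 := len_le ha1
        have hle2 := len_le ha2
        simp only [List.length_cons, List.length_nil] at hle1 hle2
        have hlt1 : Fintype.card D₁ - (P₁.length + ([r₁] : List D₁).length) < n := by
          simp only [List.length_cons, List.length_nil]
          omega
        have hlt2 : Fintype.card D₂ - (([r₂] : List D₂).length + Q₂.length) < n := by
          simp only [List.length_cons, List.length_nil]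
          omega
        obtain ⟨p₁, hp₁, hfp⟩ : ∃ p₁ ∈ P₁, M₁.f p₁ = M.f p := by
          have : M.f p ∈ P₁.map M₁.f := by rw [← hs1.1]; exact List.mem_map_of_mem hp
          exact List.mem_map.1 this
        obtain ⟨q₂, hq₂, hfq⟩ : ∃ q₂ ∈ Q₂, M₂.f q₂ = M.f q := by
          have : M.f q ∈ Q₂.map M₂.f := by rw [← hs2.1]; exact List.mem_map_of_mem hq
          exact List.mem_map.1 this
        have c1 := ih _ hlt1 D₁ M₁ P₁ [r₁] ε rfl ha1 hadj1 hsumP hr1s p₁ hp₁ r₁ (by simp)
        have c2 := ih _ hlt2 D₂ M₂ [r₂] Q₂ ε rfl ha2 hadj2 hr2s hsumQ r₂ (by simp) q₂ hq₂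
        -- the loop
        have hφr : M₁.φ r₁ = r₁ := by
          have := ha1.faceQ.2.2
          simpa using this
        have hhr : M₁.h r₁ = - ε := by
          have := ha1.holQ
          simpa [LMap.hol] using this
        have ht : M₁.t r₁ = (a ^ (- ε)) (M₁.f r₁) := by
          rw [t_eq, hφr, hhr]
        have hA : X.G.Adj (M₁.f r₁) ((a ^ (- ε)) (M₁.f r₁)) := by
          rw [← ht]; exact hadj1 r₁
        have hA' : X.G.Adj (M₁.f r₁) (a (M₁.f r₁)) := by
          rcases hann.eps with h | h
          · rw [h] at hA
            have h2 := (hHyp.aut.adj _ _).2 hA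
            have h3 : a ((a ^ (-1 : ℤ)) (M₁.f r₁)) = M₁.f r₁ := by
              rw [zpow_neg_one]
              exact a.apply_symm_apply _
            rw [h3] at h2
            exact h2.symm
          · rw [h] at hA
            simpa using hA
        have hd : X.G.dist (M₁.f r₁) (a (M₁.f r₁)) ≤ 1 := by
          rw [SimpleGraph.dist_eq_one_iff_adj.2 hA']
        have c3 := htr (M₁.f r₁) m 1 hd (by omega)
        rw [hfp] at c1
        rw [hfq, hm] at c2
        exact htrans _ _ _ (htrans _ _ _ c1 c3) c2
  intro D _ M P Q ε hann hadj hP hQ p hp q hq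
  exact key _ D M P Q ε rfl hann hadj hP hQ p hp q hq

end MSG.H58
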