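import Pool.Agent.Lib.MP_acafa7_al.MS.Iface3

/-! Module G2A: an infinite normal abelian subgroup with an element of infinite order. -/

namespace MSG.H58

open MSG

/-- in a commutative subgroup `B`, the powers by the relative index of a cyclic subgroup land in
the cyclic subgroup -/
theorem pow_relIndex_mem_of_comm {S : Type} [Group S] (B : Subgroup S)
    (hB : ∀ x ∈ B, ∀ y ∈ B, x * y = y * x) (C : Subgroup S) (x : S) (hx : x ∈ B) :
    x ^ (C.relIndex B) ∈ C := by
  have hn : (C.subgroupOf B).Normal := by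
    constructor
    intro n hn g
    have h : g * n * g⁻¹ = n := by
      apply Subtype.ext
      have h1 : (g : S) * (n : S) = (n : S) * (g : S) := hB _ g.2 _ n.2
      show (g : S) * (n : S) * (g : S)⁻¹ = (n : S)
      rw [h1, mul_inv_cancel_right]
    rw [h]
    exact hn
  have h2 := Subgroup.pow_index_mem (C.subgroupOf B) (⟨x, hx⟩ : B)
  rw [Subgroup.mem_subgroupOf] at h2
  exact h2

theorem g2a : G2AStatement := by
  intro S _ hC B hBn hB b hb hbi
  have h1 : (Subgroup.zpowers b).relIndex B ≠ 0 := by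
    apply hC b hbi B hb
    intro k hk
    have h : k * b * k⁻¹ = b := by rw [hB k hk b hb, mul_inv_cancel_right]
    rw [h]
    exact Subgroup.mem_zpowers b
  set m := (Subgroup.zpowers b).relIndex B with hm
  -- the subgroup of m-th powers
  let M : Subgroup S :=
    { carrier := {y | ∃ x ∈ B, x ^ m = y}
      one_mem' := ⟨1, B.one_mem, one_pow m⟩
      mul_mem' := by
        rintro _ _ ⟨x, hx, rfl⟩ ⟨y, hy, rfl⟩
        refine ⟨x * y, B.mul_mem hx hy, ?_⟩
        have hc : Commute x y := hB x hx y hy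
        exact hc.mul_pow m
      inv_mem' := by
        rintro _ ⟨x, hx, rfl⟩
        exact ⟨x⁻¹, B.inv_mem hx, inv_pow x m⟩ }
  have hM : M ≤ Subgroup.zpowers b := by
    rintro _ ⟨x, hx, rfl⟩
    exact pow_relIndex_mem_of_comm B hB _ x hx
  have hbm : b ^ m ∈ M := ⟨b, hb, rfl⟩
  -- M is cyclic
  obtain ⟨s, hs⟩ : ∃ s : S, Subgroup.zpowers s = M := by
    have hcyc : IsCyclic (Subgroup.zpowers b) := inferInstance
    have hc2 : IsCyclic (M.subgroupOf (Subgroup.zpowers b)) := inferInstance
    obtain ⟨g, hg⟩ := hc2.exists_generator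
    refine ⟨((g : Subgroup.zpowers b) : S), ?_⟩
    apply le_antisymm
    · rw [Subgroup.zpowers_le]
      exact Subgroup.mem_subgroupOf.1 g.2
    · intro y hy
      obtain ⟨k, hk⟩ := hg ⟨⟨y, hM hy⟩, Subgroup.mem_subgroupOf.2 hy⟩
      refine ⟨k, ?_⟩
      have := congrArg (fun z : (M.subgroupOf (Subgroup.zpowers b)) => ((z : Subgroup.zpowers b) : S)) hk
      simpa using this
  have hsM : s ∈ M := by rw [← hs]; exact Subgroup.mem_zpowers s
  obtain ⟨t, ht⟩ := hM hsM
  have ht' : b ^ t = s := ht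
  obtain ⟨j, hj⟩ : b ^ m ∈ Subgroup.zpowers s := by rw [hs]; exact hbm
  have hj' : s ^ j = b ^ m := hj
  have ht0 : t ≠ 0 := by
    intro h0
    rw [h0, zpow_zero] at ht'
    rw [← ht', one_zpow] at hj'
    have := hbi (m : ℤ) (by rw [zpow_natCast]; exact hj'.symm)
    exact h1 (by exact_mod_cast this)
  have hsi : InfO s := by
    intro n hn
    rw [← ht', ← zpow_mul] at hn
    have := hbi _ hn
    rcases mul_eq_zero.1 this with h | h
    · exact absurd h ht0
    · exact h
  refine ⟨s, hsi, ?_⟩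
  have h3 : (Subgroup.zpowers s).relIndex ⊤ ≠ 0 := by
    apply hC s hsi ⊤ (Subgroup.mem_top s)
    intro k _
    rw [hs]
    obtain ⟨x, hx, hxs⟩ := hsM
    refine ⟨k * x * k⁻¹, hBn.conj_mem x hx k, ?_⟩
    rw [conj_pow, hxs]
  rwa [Subgroup.relIndex_top_right] at h3

end MSG.H58
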