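import Pool.Agent.Lib.MP_acafa7_al.MS.Iface1

/-! Module Gb2: Gauss-Bonnet with two big faces.  (MP_acafa7_al, helper58) -/

set_option linter.all false

namespace MSG.H58

open Classical MSG

section faces

variable {D : Type} {M : DMap D}

theorem face_step {l : List D} (h : M.IsFace l) (i : ℕ) (hi : i < l.length) :
    M.φ l[i] = l[(i + 1) % l.length]'(Nat.mod_lt _ (by omega)) := by
  have h1 : (l.map M.φ)[i]'(by simpa using hi) = (l.rotate 1)[i]'(by simpa using hi) := by
    have := h.2.2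
    simp only [this]
  rw [List.getElem_map, List.getElem_rotate] at h1
  exact h1

theorem face_pow {l : List D} (h : M.IsFace l) (hl : 0 < l.length) (k : ℕ) :
    (M.φ ^ k) (l[0]) = l[k % l.length]'(Nat.mod_lt _ hl) := by
  induction k with
  | zero => simp
  | succ k ih =>
    rw [pow_succ', Equiv.Perm.mul_apply, ih, face_step h _ (Nat.mod_lt _ hl)]
    congr 1
    rw [Nat.mod_add_mod]

theorem face_mem {l : List D} (h : M.IsFace l) {x : D} (hx : x ∈ l) : M.φ x ∈ l := by
  obtain ⟨i, hi, rfl⟩ := List.getElem_of_mem hx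
  rw [face_step h i hi]
  exact List.getElem_mem _

theorem face_pos {l : List D} (h : M.IsFace l) : 0 < l.length := List.length_pos_of_ne_nil h.1

theorem face_same {l : List D} (h : M.IsFace l) {x y : D} (hx : x ∈ l) (hy : y ∈ l) :
    Equiv.Perm.SameCycle M.φ x y := by
  have h0 := face_pos h
  have key : ∀ z ∈ l, Equiv.Perm.SameCycle M.φ (l[0]) z := by
    intro z hz
    obtain ⟨i, hi, rfl⟩ := List.getElem_of_mem hz
    refine ⟨(i : ℤ), ?_⟩
    rw [zpow_natCast, face_pow h h0]
    congr 1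
    exact Nat.mod_eq_of_lt hi
  exact (key x hx).symm.trans (key y hy)

theorem face_closed [Fintype D] {l : List D} (h : M.IsFace l) {x y : D} (hx : x ∈ l)
    (hxy : Equiv.Perm.SameCycle M.φ x y) : y ∈ l := by
  obtain ⟨i, hi⟩ := hxy.exists_nat_pow_eq
  have key : ∀ k : ℕ, (M.φ ^ k) x ∈ l := by
    intro k
    induction k with
    | zero => simpa using hx
    | succ k ih => rw [pow_succ', Equiv.Perm.mul_apply]; exact face_mem h ih
  rw [← hi]; exact key i

theorem tri_class [Fintype D] {d x : D} (h3 : M.Tri3 d) :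
    Equiv.Perm.SameCycle M.φ d x ↔ x = d ∨ x = M.φ d ∨ x = M.φ (M.φ d) := by
  constructor
  · intro h
    obtain ⟨i, hi⟩ := h.exists_nat_pow_eq
    have key : ∀ k : ℕ, (M.φ ^ k) d = d ∨ (M.φ ^ k) d = M.φ d ∨ (M.φ ^ k) d = M.φ (M.φ d) := by
      intro k
      induction k with
      | zero => left; simp
      | succ k ih =>
        rw [pow_succ', Equiv.Perm.mul_apply]
        rcases ih with h | h | h
        · right; left; rw [h]
        · right; right; rw [h]
        · left; rw [h]; exact h3.1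
    rw [← hi]; exact key i
  · rintro (h | h | h)
    · rw [h]
    · rw [h]; exact ⟨1, by simp⟩
    · rw [h]; exact ⟨2, by rw [show (2 : ℤ) = ((2 : ℕ) : ℤ) from rfl, zpow_natCast]; simp [pow_two]⟩

theorem sum_quot {D : Type} [Fintype D] (s : Setoid D) (f : D → ℝ) :
    ∑ q : Quotient s, ∑ d : D, (if s.r (Quotient.out q) d then f d else 0) = ∑ d, f d := by
  rw [Finset.sum_comm]
  refine Finset.sum_congr rfl fun d _ => ?_
  rw [Finset.sum_eq_single (Quotient.mk s d)]
  · rw [if_pos]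
    exact Quotient.exact (Quotient.out_eq (Quotient.mk s d))
  · intro q _ hq
    rw [if_neg]
    intro h
    apply hq
    rw [← Quotient.out_eq q]
    exact Quotient.sound h
  · intro h
    exact absurd (Finset.mem_univ _) h

end faces

/-- weights of the darts, with sum one over each face -/
noncomputable def wD {D : Type} (P Q : List D) (d : D) : ℝ :=
  if d ∈ P then 1 / (P.length : ℝ) else if d ∈ Q then 1 / (Q.length : ℝ) else 1 / 3

section main

variable {D : Type} [Fintype D] {M : DMap D} {P Q : List D}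

theorem sum_mem_const (P : List D) (hP : P.Nodup) (c : ℝ) :
    ∑ d : D, (if d ∈ P then c else 0) = P.length * c := by
  rw [← Finset.sum_filter]
  have : (Finset.univ.filter (fun d => d ∈ P)) = P.toFinset := by
    ext d; simp
  rw [this, Finset.sum_const, List.toFinset_card_of_nodup hP, nsmul_eq_mul]

theorem class_sum (hP : M.IsFace P) (hQ : M.IsFace Q) (hPQ : ∀ d, d ∈ P → d ∉ Q)
    (hB : M.Off3 {d | d ∈ P ∨ d ∈ Q}) (x : D) :
    ∑ d : D, (if Equiv.Perm.SameCycle M.φ x d then wD P Q d else 0) = 1 := by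
  by_cases hxP : x ∈ P
  · have e : ∀ d : D, (if Equiv.Perm.SameCycle M.φ x d then wD P Q d else 0) =
        if d ∈ P then 1 / (P.length : ℝ) else 0 := by
      intro d
      by_cases hd : d ∈ P
      · rw [if_pos (face_same hP hxP hd), if_pos hd, wD, if_pos hd]
      · rw [if_neg (fun h => hd (face_closed hP hxP h)), if_neg hd]
    rw [Finset.sum_congr rfl (fun d _ => e d), sum_mem_const P hP.2.1]
    have : (P.length : ℝ) ≠ 0 := by exact_mod_cast (face_pos hP).ne'
    field_simp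
  by_cases hxQ : x ∈ Q
  · have e : ∀ d : D, (if Equiv.Perm.SameCycle M.φ x d then wD P Q d else 0) =
        if d ∈ Q then 1 / (Q.length : ℝ) else 0 := by
      intro d
      by_cases hd : d ∈ Q
      · rw [if_pos (face_same hQ hxQ hd), if_pos hd, wD, if_neg (fun h => hPQ d h hd), if_pos hd]
      · rw [if_neg (fun h => hd (face_closed hQ hxQ h)), if_neg hd]
    rw [Finset.sum_congr rfl (fun d _ => e d), sum_mem_const Q hQ.2.1]
    have : (Q.length : ℝ) ≠ 0 := by exact_mod_cast (face_pos hQ).ne'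
    field_simp
  have hxB : x ∉ {d | d ∈ P ∨ d ∈ Q} := fun h => h.elim hxP hxQ
  have h3 := hB.2 x hxB
  have hn : [x, M.φ x, M.φ (M.φ x)].Nodup := by
    have n1 : M.φ x ≠ x := h3.2
    have n2 : M.φ (M.φ x) ≠ M.φ x := fun h => n1 (M.φ.injective h)
    have n3 : M.φ (M.φ x) ≠ x := by
      intro h
      have := h3.1
      rw [h] at this
      exact n1 this
    simp only [List.nodup_cons, List.mem_cons, List.not_mem_nil, or_false, not_or,
      not_false_eq_true, List.nodup_nil, and_true]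
    exact ⟨⟨fun h => n1 h.symm, fun h => n3 h.symm⟩, fun h => n2 h.symm⟩
  have e : ∀ d : D, (if Equiv.Perm.SameCycle M.φ x d then wD P Q d else 0) =
      if d ∈ [x, M.φ x, M.φ (M.φ x)] then (1 / 3 : ℝ) else 0 := by
    intro d
    by_cases hd : Equiv.Perm.SameCycle M.φ x d
    · have hd' := (tri_class h3).1 hd
      have hdP : d ∉ P := fun h => hxP (face_closed hP h hd.symm)
      have hdQ : d ∉ Q := fun h => hxQ (face_closed hQ h hd.symm)
      rw [if_pos hd, if_pos (by simpa using hd'), wD, if_neg hdP, if_neg hdQ]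
    · rw [if_neg hd, if_neg]
      intro h
      exact hd ((tri_class h3).2 (by simpa using h))
  rw [Finset.sum_congr rfl (fun d _ => e d), sum_mem_const _ hn]
  simp

theorem nF_eq (hP : M.IsFace P) (hQ : M.IsFace Q) (hPQ : ∀ d, d ∈ P → d ∉ Q)
    (hB : M.Off3 {d | d ∈ P ∨ d ∈ Q}) : (M.nF : ℝ) = ∑ d : D, wD P Q d := by
  have h1 := sum_quot (Equiv.Perm.SameCycle.setoid M.φ) (wD P Q)
  have h2 : ∀ q : Quotient (Equiv.Perm.SameCycle.setoid M.φ),
      ∑ d : D, (if (Equiv.Perm.SameCycle.setoid M.φ).r (Quotient.out q) d then wD P Q d else 0)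
        = 1 := by
    intro q
    rw [← class_sum hP hQ hPQ hB (Quotient.out q)]
    refine Finset.sum_congr rfl fun d _ => ?_
    by_cases hd : Equiv.Perm.SameCycle M.φ (Quotient.out q) d
    · have hd' : (Equiv.Perm.SameCycle.setoid M.φ).r (Quotient.out q) d := hd
      rw [if_pos hd', if_pos hd]
    · have hd' : ¬ (Equiv.Perm.SameCycle.setoid M.φ).r (Quotient.out q) d := hd
      rw [if_neg hd', if_neg hd]
  rw [← h1, Finset.sum_congr rfl (fun q _ => h2 q), Finset.sum_const, nsmul_eq_mul, mul_one,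
    DMap.nF, Nat.card_eq_fintype_card, Finset.card_univ]

theorem sum_wD (hP : M.IsFace P) (hQ : M.IsFace Q) (hPQ : ∀ d, d ∈ P → d ∉ Q) :
    3 * ∑ d : D, wD P Q d = 6 + (Fintype.card D : ℝ) - P.length - Q.length := by
  have e : ∀ d : D, wD P Q d = (if d ∈ P then (1 / (P.length : ℝ) - 1 / 3) else 0) +
      ((if d ∈ Q then (1 / (Q.length : ℝ) - 1 / 3) else 0) + 1 / 3) := by
    intro d
    unfold wD
    by_cases h1 : d ∈ P
    · rw [if_pos h1, if_pos h1, if_neg (hPQ d h1)]; ring
    · by_cases h2 : d ∈ Q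
      · rw [if_neg h1, if_neg h1, if_pos h2, if_pos h2]; ring
      · rw [if_neg h1, if_neg h1, if_neg h2, if_neg h2]; ring
  rw [Finset.sum_congr rfl (fun d _ => e d), Finset.sum_add_distrib, Finset.sum_add_distrib,
    sum_mem_const P hP.2.1, sum_mem_const Q hQ.2.1, Finset.sum_const, nsmul_eq_mul,
    Finset.card_univ]
  have h1 : (P.length : ℝ) ≠ 0 := by exact_mod_cast (face_pos hP).ne'
  have h2 : (Q.length : ℝ) ≠ 0 := by exact_mod_cast (face_pos hQ).ne'
  field_simp
  ring

theorem sum_wt (hAng : AngStatement) (ℓ : D → ℝ) (B : Set D) (hφ : ∀ d ∈ B, M.φ d ∈ B)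
    (h3 : ∀ d, d ∉ B → M.Tri3 d) (hL : M.LenOK ℓ B) :
    3 * ∑ d : D, M.wt ℓ B d = Real.pi * ∑ d : D, (if d ∈ B then 3 else 1) := by
  have hn : ∀ d, d ∉ B → M.φ d ∉ B := by
    intro d hd h
    apply hd
    have := hφ _ (hφ _ h)
    rwa [(h3 d hd).1] at this
  have hn' : ∀ d, M.φ d ∈ B ↔ d ∈ B := fun d =>
    ⟨fun h => by by_contra hc; exact hn d hc h, fun h => hφ d h⟩
  have s1 : ∑ d : D, M.wt ℓ B d = ∑ d : D, M.wt ℓ B (M.φ d) :=
    (Equiv.sum_comp M.φ (fun d => M.wt ℓ B d)).symm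
  have s2 : ∑ d : D, M.wt ℓ B d = ∑ d : D, M.wt ℓ B (M.φ (M.φ d)) := by
    rw [s1]
    exact (Equiv.sum_comp M.φ (fun d => M.wt ℓ B (M.φ d))).symm
  have s3 : 3 * ∑ d : D, M.wt ℓ B d = ∑ d : D, (M.wt ℓ B d + (M.wt ℓ B (M.φ d) +
      M.wt ℓ B (M.φ (M.φ d)))) := by
    rw [Finset.sum_add_distrib, Finset.sum_add_distrib, ← s1, ← s2]; ring
  rw [s3, Finset.mul_sum]
  refine Finset.sum_congr rfl fun d _ => ?_
  by_cases hd : d ∈ B
  · have h1 : M.φ d ∈ B := hφ d hd
    have h2 : M.φ (M.φ d) ∈ B := hφ _ h1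
    simp only [DMap.wt]
    rw [if_pos hd, if_pos h1, if_pos h2, if_pos hd]
    ring
  · have h1 : M.φ d ∉ B := hn d hd
    have h2 : M.φ (M.φ d) ∉ B := hn _ h1
    simp only [DMap.wt]
    rw [if_neg hd, if_neg h1, if_neg h2, if_neg hd, mul_one]
    simp only [DMap.th]
    have e3 := (h3 d hd).1
    rw [e3]
    obtain ⟨hpos, hsym, htri⟩ := hL
    have t1 := htri d hd
    have t2 := htri _ h1
    have t3 := htri _ h2
    rw [e3] at t2 t3
    have := (hAng (ℓ d) (ℓ (M.φ (M.φ d))) (ℓ (M.φ d)) (hpos _) (hpos _) (hpos _)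
      (by linarith) (by linarith) (by linarith)).2.2.1
    linarith

theorem sum_curv (ℓ : D → ℝ) (B : Set D) :
    ∑ q : Quotient M.vSet, M.curv ℓ B (Quotient.out q) =
      2 * Real.pi * M.nV - ∑ d : D, M.wt ℓ B d := by
  have h1 := sum_quot M.vSet (fun d => M.wt ℓ B d)
  have h2 : ∀ q : Quotient M.vSet, M.curv ℓ B (Quotient.out q) = 2 * Real.pi -
      ∑ d : D, (if M.vSet.r (Quotient.out q) d then M.wt ℓ B d else 0) := by
    intro q
    rfl
  rw [Finset.sum_congr rfl (fun q _ => h2 q), Finset.sum_sub_distrib, h1, Finset.sum_const,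
    nsmul_eq_mul, DMap.nV, Nat.card_eq_fintype_card, Finset.card_univ]
  ring

theorem curv_congr (ℓ : D → ℝ) (B : Set D) {x y : D} (h : M.SameV x y) :
    M.curv ℓ B x = M.curv ℓ B y := by
  unfold DMap.curv
  congr 1
  refine Finset.sum_congr rfl fun d _ => ?_
  by_cases hd : M.SameV x d
  · rw [if_pos hd, if_pos (M.sameV_trans (M.sameV_symm h) hd)]
  · rw [if_neg hd, if_neg (fun hc => hd (M.sameV_trans h hc))]

end main

/-- Gb2 -/
theorem gb2 (hEul : EulStatement) (hAng : AngStatement) : Gb2Statement := by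
  intro D _ M ℓ P Q hpl hP hQ hPQ hB hL
  set B : Set D := {d | d ∈ P ∨ d ∈ Q} with hBd
  have hne : Nonempty D := by
    obtain ⟨x, hx⟩ := List.exists_mem_of_ne_nil P hP.1
    exact ⟨x⟩
  have hE := hEul D M hpl hne
  have hE' : (Fintype.card D : ℝ) + 4 ≤ 2 * ((M.nV : ℝ) + (M.nF : ℝ)) := by exact_mod_cast hE
  have hF := nF_eq hP hQ hPQ hB
  have hW := sum_wD (M := M) hP hQ hPQ
  have hw := sum_wt hAng ℓ B hB.1 hB.2 hL
  have hc : ∑ d : D, (if d ∈ B then (3 : ℝ) else 1) =
      (Fintype.card D : ℝ) + 2 * P.length + 2 * Q.length := by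
    have e : ∀ d : D, (if d ∈ B then (3 : ℝ) else 1) =
        (if d ∈ P then 2 else 0) + ((if d ∈ Q then 2 else 0) + 1) := by
      intro d
      by_cases h1 : d ∈ P
      · have h2 : d ∉ Q := hPQ d h1
        have h3 : d ∈ B := Or.inl h1
        rw [if_pos h3, if_pos h1, if_neg h2]; norm_num
      · by_cases h2 : d ∈ Q
        · have h3 : d ∈ B := Or.inr h2
          rw [if_pos h3, if_neg h1, if_pos h2]; norm_num
        · have h3 : d ∉ B := fun h => h.elim h1 h2
          rw [if_neg h3, if_neg h1, if_neg h2]; norm_num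
    rw [Finset.sum_congr rfl (fun d _ => e d), Finset.sum_add_distrib, Finset.sum_add_distrib,
      sum_mem_const P hP.2.1, sum_mem_const Q hQ.2.1, Finset.sum_const, nsmul_eq_mul,
      Finset.card_univ]
    ring
  have hw : 3 * ∑ d : D, M.wt ℓ B d = Real.pi * ((Fintype.card D : ℝ) + 2 * P.length +
      2 * Q.length) := by
    rw [hw, ← hc]
    congr 1
    refine Finset.sum_congr rfl fun d _ => ?_
    by_cases hd : d ∈ B
    · rw [if_pos hd, if_pos hd]
    · rw [if_neg hd, if_neg hd]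
  have hs : 0 ≤ ∑ q : Quotient M.vSet, M.curv ℓ B (Quotient.out q) := by
    rw [sum_curv]
    have hpi := Real.pi_pos
    have h1 : 2 * (M.nV : ℝ) ≥ (Fintype.card D : ℝ) + 4 - 2 * M.nF := by linarith
    have h2 : 3 * (M.nF : ℝ) = 6 + (Fintype.card D : ℝ) - P.length - Q.length := by
      rw [hF]; exact hW
    have h3 : 3 * (2 * (M.nV : ℝ)) ≥ (Fintype.card D : ℝ) + 2 * P.length + 2 * Q.length := by
      nlinarith
    have h4 := mul_le_mul_of_nonneg_left h3 hpi.le
    have h5 : 3 * (2 * Real.pi * (M.nV : ℝ) - ∑ d : D, M.wt ℓ B d) ≥ 0 := by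
      have : 3 * (2 * Real.pi * (M.nV : ℝ) - ∑ d : D, M.wt ℓ B d) =
        Real.pi * (3 * (2 * (M.nV : ℝ))) - 3 * ∑ d : D, M.wt ℓ B d := by ring
      rw [this, hw]
      linarith
    linarith
  by_cases hex : ∃ d, 0 < M.curv ℓ B d
  · exact Or.inl hex
  · right
    push_neg at hex
    have hz : ∀ q ∈ (Finset.univ : Finset (Quotient M.vSet)),
        M.curv ℓ B (Quotient.out q) = 0 := by
      have hle : ∑ q : Quotient M.vSet, M.curv ℓ B (Quotient.out q) ≤ 0 :=
        Finset.sum_nonpos fun q _ => hex _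
      have h0 : ∑ q : Quotient M.vSet, M.curv ℓ B (Quotient.out q) = 0 := le_antisymm hle hs
      exact (Finset.sum_eq_zero_iff_of_nonpos (fun q _ => hex _)).1 h0
    intro d
    have h1 := hz (Quotient.mk M.vSet d) (Finset.mem_univ _)
    rw [← h1]
    exact (curv_congr ℓ B (Quotient.exact (Quotient.out_eq (Quotient.mk M.vSet d)))).symm

end MSG.H58
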