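import Pool.Agent.Lib.MP_acafa7_al.MS.Iface2

/-! Module Inner: a marked vertex gives a smaller annulus (9.5). -/

namespace MSG.H58

open MSG
open Classical

section aux

variable {V : Type} {X : Cx V} {a : Equiv.Perm V} {C : ℝ}

/-- transfer along `SmallerDeg` -/
theorem smaller_of_same (K : ℝ) (K' : ℕ) (𝒜 𝒜' : MA X a C)
    (h1 : 𝒜'.nt = 𝒜.nt) (h2 : 𝒜'.nb = 𝒜.nb)
    (h3 : 𝒜'.P.map 𝒜'.M.f = 𝒜.P.map 𝒜.M.f) (h4 : 𝒜'.Q.map 𝒜'.M.f = 𝒜.Q.map 𝒜.M.f)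
    (h : 𝒜'.Smaller K K') : 𝒜.Smaller K K' := by
  obtain ⟨ℬ, hle, hlt, hgood⟩ := h
  refine ⟨ℬ, hle, ?_, ?_⟩
  · rw [← h1, ← h2]; exact hlt
  · intro hg p hp q hq
    have hg' := hgood hg
    obtain ⟨p', hp', e1⟩ : ∃ p' ∈ 𝒜'.P, 𝒜'.M.f p' = 𝒜.M.f p := by
      have : 𝒜.M.f p ∈ 𝒜'.P.map 𝒜'.M.f := by rw [h3]; exact List.mem_map_of_mem hp
      exact List.mem_map.1 this
    obtain ⟨q', hq', e2⟩ : ∃ q' ∈ 𝒜'.Q, 𝒜'.M.f q' = 𝒜.M.f q := by
      have : 𝒜.M.f q ∈ 𝒜'.Q.map 𝒜'.M.f := by rw [h4]; exact List.mem_map_of_mem hq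
      exact List.mem_map.1 this
    have := hg' p' hp' q' hq'
    rwa [e1, e2] at this

/-- a face is closed under the inverse of `φ` -/
theorem face_pre {D : Type} (M : DMap D) {L : List D} (h : M.IsFace L) {x : D}
    (hx : M.φ x ∈ L) : x ∈ L := by
  have h1 : M.φ x ∈ L.rotate 1 := List.mem_rotate.2 hx
  rw [← h.2.2] at h1
  obtain ⟨y, hy, e⟩ := List.mem_map.1 h1
  rwa [← M.φ.injective e]

end aux

theorem inner (hFan : FanExStatement) (hHair : HairMStatement) (hInA : InAStatement)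
    (hInB : InBStatement) (hInC : InCStatement) (hLoopK : LoopKStatement)
    (hPush : PushMStatement) (hErase : EraseMStatement) (hLoopM : LoopMStatement) :
    InnerStatement := by
  intro V X a C K K' hHyp
  have key : ∀ (n : ℕ) (𝒜 : MA X a C) (o : 𝒜.D), 𝒜.M.deg o = n → 𝒜.Le K → 𝒜.Marked o →
      𝒜.Smaller K K' := by
    intro n
    induction n using Nat.strong_induction_on with
    | _ n ih =>
    intro 𝒜 o hn hle hmark
    have rec1 : 𝒜.SmallerDeg o → 𝒜.Smaller K K' := by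
      rintro ⟨𝒜', o', hm', hd, e1, e2, e3, e4, e5, e6⟩
      apply smaller_of_same K K' 𝒜 𝒜' e1 e2 e3 e4
      refine ih _ (by rw [← hn]; exact hd) 𝒜' o' rfl ⟨?_, ?_⟩ hm'
      · rw [e5]; exact hle.1
      · rw [e6]; exact hle.2
    obtain ⟨k, s, hfan⟩ := hFan V X a C 𝒜 o hmark
    rcases Nat.eq_zero_or_pos k with hk0 | hk0
    · subst hk0
      exact hHair V X a C K K' hHyp 𝒜 o s hle hmark hfan
    by_cases hloop : ∃ j, 0 < j ∧ j < k ∧ 𝒜.M.SameV o (𝒜.M.ι (s j))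
    · obtain ⟨j, hj0, hjk, hj⟩ := hloop
      exact rec1 (hInA V X a C hHyp.aut hHyp.C0 𝒜 o k s hmark hfan j hj0 hjk hj)
    have hnl : ∀ j, 0 < j → j < k → ¬ 𝒜.M.SameV o (𝒜.M.ι (s j)) :=
      fun j h0 h1 h2 => hloop ⟨j, h0, h1, h2⟩
    by_cases hφ : 𝒜.M.φ o = o
    · -- the face `P` is a loop
      have hk3 := hLoopK V X a C hHyp.aut 𝒜 o k s hmark hfan hφ
      by_cases hB : ∃ j, 2 ≤ j ∧ j + 2 ≤ k ∧
          𝒜.M.th 𝒜.ℓ (𝒜.M.ι (s j)) + 𝒜.M.th 𝒜.ℓ (𝒜.M.φ (s j)) < Real.pi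
      · obtain ⟨j, hj2, hjk, hj⟩ := hB
        obtain ⟨i, rfl⟩ : ∃ i, j = i + 1 := ⟨j - 1, by omega⟩
        exact rec1 (hInB V X a C hHyp.aut hHyp.C0 𝒜 o k s hmark hfan (Or.inr hk3) i (by omega)
          (hnl i (by omega) (by omega)) (hnl (i + 1) (by omega) (by omega))
          (hnl (i + 2) (by omega) (by omega)) hj)
      · have hB' : ∀ j, 2 ≤ j → j + 2 ≤ k →
            Real.pi ≤ 𝒜.M.th 𝒜.ℓ (𝒜.M.ι (s j)) + 𝒜.M.th 𝒜.ℓ (𝒜.M.φ (s j)) :=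
          fun j h2 h3 => not_lt.1 fun h4 => hB ⟨j, h2, h3, h4⟩
        by_cases hC : 𝒜.M.th 𝒜.ℓ (𝒜.M.ι (s (k - 1))) + 𝒜.M.th 𝒜.ℓ (𝒜.M.ι (s 1)) +
            𝒜.M.th 𝒜.ℓ (𝒜.M.φ (s 1)) < Real.pi
        · exact rec1 (hInC V X a C hHyp.aut hHyp.C0 𝒜 o k s hmark hfan hφ hk3 hnl hC)
        · exact hLoopM V X a C K K' hHyp 𝒜 o k s hle hmark hfan hφ hk3 hnl hB' (not_lt.1 hC)
    · -- the first and the last spoke are not loops
      have hs0 : ¬ 𝒜.M.SameV o (𝒜.M.ι (s 0)) := by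
        intro h
        have h1 : 𝒜.M.ι (s 0) ∈ 𝒜.P := by
          apply face_pre 𝒜.M.toDMap 𝒜.ok.ann.faceP
          rw [hfan.zero]; exact hmark.1
        have h2 := hmark.2.1 _ (Or.inl h1) h
        apply hφ
        have h3 := hfan.zero
        rw [h2] at h3
        exact h3
      have hsk : ¬ 𝒜.M.SameV o (𝒜.M.ι (s k)) := by
        intro h
        rw [hfan.last] at h
        have h1 : 𝒜.M.φ o ∈ 𝒜.P := by
          have h0 : 𝒜.M.φ o ∈ 𝒜.P.map 𝒜.M.φ := List.mem_map_of_mem hmark.1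
          rw [𝒜.ok.ann.faceP.2.2] at h0
          exact List.mem_rotate.1 h0
        have h2 : 𝒜.M.SameV o (𝒜.M.φ o) :=
          𝒜.M.sameV_trans h (𝒜.M.sameV_symm (𝒜.M.sameV_step o))
        exact hφ (hmark.2.1 _ (Or.inl h1) h2)
      have hall : ∀ j, j ≤ k → ¬ 𝒜.M.SameV o (𝒜.M.ι (s j)) := by
        intro j hj
        rcases Nat.eq_zero_or_pos j with h0 | h0
        · subst h0; exact hs0
        · rcases Nat.lt_or_ge j k with h1 | h1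
          · exact hnl j h0 h1
          · have : j = k := le_antisymm hj h1
            subst this; exact hsk
      by_cases hB : ∃ j, 0 < j ∧ j < k ∧
          𝒜.M.th 𝒜.ℓ (𝒜.M.ι (s j)) + 𝒜.M.th 𝒜.ℓ (𝒜.M.φ (s j)) < Real.pi
      · obtain ⟨j, hj0, hjk, hj⟩ := hB
        by_cases hc : 0 < 𝒜.M.curv 𝒜.ℓ (annB 𝒜.P 𝒜.Q) o ∨ 3 ≤ k
        · obtain ⟨i, rfl⟩ : ∃ i, j = i + 1 := ⟨j - 1, by omega⟩
          exact rec1 (hInB V X a C hHyp.aut hHyp.C0 𝒜 o k s hmark hfan hc i (by omega)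
            (hall i (by omega)) (hall (i + 1) (by omega)) (hall (i + 2) (by omega)) hj)
        · have hk2 : k = 2 := by
            have : ¬ 3 ≤ k := fun h => hc (Or.inr h)
            omega
          subst hk2
          have hcz : 𝒜.M.curv 𝒜.ℓ (annB 𝒜.P 𝒜.Q) o = 0 :=
            le_antisymm (not_lt.1 fun h => hc (Or.inl h)) hmark.2.2
          exact hErase V X a C K K' hHyp 𝒜 o s hle hmark hfan hφ (hall 1 (by omega)) hcz
      · exact hPush V X a C K K' hHyp 𝒜 o k s hle hmark hfan hφ hk0 hnl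
          (fun j h2 h3 => not_lt.1 fun h4 => hB ⟨j, h2, h3, h4⟩)
  intro 𝒜 o hle hmark
  exact key _ 𝒜 o rfl hle hmark

end MSG.H58
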